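import Pool.Agent.H382R3.KD.Fin2

set_option autoImplicit false

namespace Pool.Agent.Results.MP_23b0f8_an.KestenSufficient

open Pool.Agent.H382R3.KD

/-- **Sufficiency of the Kesten condition.** For all `D ∈ (0,1)`, irrational `γ` and every `x₀` with
`D = j γ + l` for some integers `j, l`, the projected staircase satisfies the diffraction condition
(its autocorrelation and its diffraction measure exist, and the latter has countably infinitely many
atoms). The same conclusion holds for every rational `D` (where the Kesten condition fails). -/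
theorem result :
    (∀ D γ x₀ : ℝ, 0 < D → D < 1 → Irrational γ → Kesten D γ →
      (∃! p : ℤ → ℤ × ℤ, IsStaircase D γ x₀ p) ∧
      ∀ p : ℤ → ℤ × ℤ, IsStaircase D γ x₀ p →
        DiffractionCondition (proj D '' Set.range p)) ∧
    (∀ D γ x₀ : ℝ, 0 < D → D < 1 → Irrational γ → (∃ r : ℚ, (r : ℝ) = D) →
      ¬ Kesten D γ ∧ (∃! p : ℤ → ℤ × ℤ, IsStaircase D γ x₀ p) ∧
      ∀ p : ℤ → ℤ × ℤ, IsStaircase D γ x₀ p →
        DiffractionCondition (proj D '' Set.range p)) :=
  ⟨fun D γ x₀ h0 h1 hγ hK => ⟨stair_unique D γ x₀, fun _ hp => sufficiency h0 h1 hγ hK hp⟩,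
    fun D γ x₀ h0 h1 hγ hD => ⟨rational_not_kesten h0 h1 hγ hD, stair_unique D γ x₀,
      fun _ hp => rational_case h0 h1 hγ hD hp⟩⟩

end Pool.Agent.Results.MP_23b0f8_an.KestenSufficient
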